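import Pool.Agent.W221.NS.Stm

/-!
Project MD, part EN: the local energy identity.
-/

set_option autoImplicit false

open MeasureTheory Set Metric Filter Topology
open scoped ContDiff

namespace Pool.Agent.W583.MD

open H459R3.NS W221.NS

/-! ### Functions on the space -/

theorem hcs {f : V → ℝ} (h : ∀ z ∉ ball (0 : V) 1, f z = 0) : HasCompactSupport f :=
  HasCompactSupport.of_support_subset_isCompact (isCompact_closedBall (0 : V) 1) fun z hz => by
    by_contra hcon
    exact hz (h z fun h' => hcon (ball_subset_closedBall h'))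

theorem sm_pd {f : V → ℝ} (hf : ContDiff ℝ ∞ f) (j : Fin 3) : ContDiff ℝ ∞ (pd j f) := by
  have h1 : ContDiff ℝ ∞ (fderiv ℝ f) := hf.fderiv_right (by norm_cast)
  exact h1.clm_apply contDiff_const

theorem cs_pd {f : V → ℝ} (hf : HasCompactSupport f) (j : Fin 3) : HasCompactSupport (pd j f) :=
  hf.fderiv_apply (𝕜 := ℝ) (Pi.single j 1)

theorem pd_mul' {f g : V → ℝ} (hf : ContDiff ℝ ∞ f) (hg : ContDiff ℝ ∞ g) (j : Fin 3) (x : V) :
    pd j (fun y => f y * g y) x = f x * pd j g x + pd j f x * g x := by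
  unfold pd
  have h : HasFDerivAt (fun y => f y * g y) _ x :=
    ((hf.differentiable (by norm_cast)) x).hasFDerivAt.mul
      ((hg.differentiable (by norm_cast)) x).hasFDerivAt
  rw [h.fderiv]
  simp only [add_apply, smul_apply, smul_eq_mul]
  ring

/-- integrable with integral zero -/
def Z (f : V → ℝ) : Prop := Integrable f ∧ ∫ x, f x = 0

theorem Z.add {f g : V → ℝ} (hf : Z f) (hg : Z g) : Z (fun x => f x + g x) :=
  ⟨hf.1.add hg.1, by rw [integral_add hf.1 hg.1, hf.2, hg.2, add_zero]⟩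

theorem Z.sub {f g : V → ℝ} (hf : Z f) (hg : Z g) : Z (fun x => f x - g x) :=
  ⟨hf.1.sub hg.1, by rw [integral_sub hf.1 hg.1, hf.2, hg.2, sub_zero]⟩

theorem Z.smul {f : V → ℝ} (hf : Z f) (c : ℝ) : Z (fun x => c * f x) :=
  ⟨hf.1.const_mul c, by rw [integral_const_mul, hf.2, mul_zero]⟩

theorem Z.sum {f : Fin 3 → V → ℝ} (hf : ∀ i, Z (f i)) : Z (fun x => ∑ i, f i x) :=
  ⟨integrable_finsetSum _ fun i _ => (hf i).1, by
    rw [integral_finsetSum _ fun i _ => (hf i).1]
    exact Finset.sum_eq_zero fun i _ => (hf i).2⟩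

theorem int_cs {f : V → ℝ} (hf : Continuous f) (hs : HasCompactSupport f) : Integrable f :=
  hf.integrable_of_hasCompactSupport hs

theorem Z_pd {f : V → ℝ} (hf : ContDiff ℝ ∞ f) (hs : HasCompactSupport f) (j : Fin 3) :
    Z (pd j f) := by
  have hi : Integrable (pd j f) := int_cs (sm_pd hf j).continuous (cs_pd hs j)
  refine ⟨hi, ?_⟩
  have h := integral_mul_fderiv_eq_neg_fderiv_mul_of_integrable (μ := (volume : Measure V))
    (f := fun _ : V => (1 : ℝ)) (g := f) (v := (Pi.single j 1 : V)) ?_ ?_ ?_ ?_ ?_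
  · simp only [one_mul, fderiv_fun_const, Pi.zero_apply, zero_apply,
      zero_mul, integral_zero, neg_zero] at h
    exact h
  · simp only [fderiv_fun_const, Pi.zero_apply, zero_apply, zero_mul]
    exact integrable_zero _ _ _
  · simp only [one_mul]
    exact hi
  · simp only [one_mul]
    exact int_cs hf.continuous hs
  · exact fun x _ => differentiableAt_const 1
  · exact fun x _ => (hf.differentiable (by norm_cast)) x

/-! ### Space-time functions -/

section

variable {α β : ℝ}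

theorem slice {F : ℝ → V → ℝ}
    (hF : ContDiffOn ℝ ∞ (fun z : ℝ × V => F z.1 z.2) (Ioo α β ×ˢ univ)) {t : ℝ}
    (ht : t ∈ Ioo α β) : ContDiff ℝ ∞ (F t) := by
  rw [← contDiffOn_univ]
  exact hF.comp (contDiff_const.prodMk contDiff_id).contDiffOn (fun x _ => ⟨ht, mem_univ _⟩)

theorem hd_slice {F : ℝ → V → ℝ}
    (hF : ContDiffOn ℝ ∞ (fun z : ℝ × V => F z.1 z.2) (Ioo α β ×ˢ univ)) {t : ℝ}
    (ht : t ∈ Ioo α β) (x : V) :
    HasDerivAt (fun s => F s x) (fderiv ℝ (fun z : ℝ × V => F z.1 z.2) (t, x) (1, 0)) t := by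
  have hmem : Ioo α β ×ˢ (univ : Set V) ∈ 𝓝 (t, x) :=
    prod_mem_nhds (Ioo_mem_nhds ht.1 ht.2) Filter.univ_mem
  have h1 : DifferentiableAt ℝ (fun z : ℝ × V => F z.1 z.2) (t, x) :=
    (hF.contDiffAt hmem).differentiableAt (by norm_cast)
  have h2 : HasDerivAt (fun s : ℝ => ((s, x) : ℝ × V)) (1, 0) t :=
    (hasDerivAt_id t).prodMk (hasDerivAt_const t x)
  exact h1.hasFDerivAt.comp_hasDerivAt t h2

theorem cont_dt {F : ℝ → V → ℝ}
    (hF : ContDiffOn ℝ ∞ (fun z : ℝ × V => F z.1 z.2) (Ioo α β ×ˢ univ)) :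
    ContinuousOn (fun z : ℝ × V =>
      fderiv ℝ (fun z : ℝ × V => F z.1 z.2) z (1, 0)) (Ioo α β ×ˢ univ) :=
  (hF.continuousOn_fderiv_of_isOpen (isOpen_Ioo.prod isOpen_univ) (by norm_cast)).clm_apply
    continuousOn_const

theorem cont_dt_slice {F : ℝ → V → ℝ}
    (hF : ContDiffOn ℝ ∞ (fun z : ℝ × V => F z.1 z.2) (Ioo α β ×ˢ univ)) {t : ℝ}
    (ht : t ∈ Ioo α β) : Continuous fun x => deriv (fun s => F s x) t := by
  have h := (cont_dt hF).comp_continuous (f := fun x : V => ((t, x) : ℝ × V)) (by fun_prop)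
    (fun x => ⟨ht, mem_univ _⟩)
  have e : (fun x => deriv (fun s => F s x) t) = fun x =>
      fderiv ℝ (fun z : ℝ × V => F z.1 z.2) (t, x) (1, 0) := by
    funext x
    exact (hd_slice hF ht x).deriv
  rw [e]
  exact h

theorem dt_zero {F : ℝ → V → ℝ} (hs : ∀ t ∈ Ioo α β, ∀ z ∉ ball (0 : V) 1, F t z = 0) {t : ℝ}
    (ht : t ∈ Ioo α β) {z : V} (hz : z ∉ ball (0 : V) 1) : deriv (fun s => F s z) t = 0 := by
  have h1 : (fun s => F s z) =ᶠ[𝓝 t] fun _ => 0 := by
    filter_upwards [Ioo_mem_nhds ht.1 ht.2] with s hs'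
    exact hs s hs' z hz
  rw [h1.deriv_eq]
  exact deriv_const t 0

theorem hd_int {F : ℝ → V → ℝ}
    (hF : ContDiffOn ℝ ∞ (fun z : ℝ × V => F z.1 z.2) (Ioo α β ×ˢ univ))
    (hs : ∀ t ∈ Ioo α β, ∀ z ∉ ball (0 : V) 1, F t z = 0) {t : ℝ} (ht : t ∈ Ioo α β) :
    HasDerivAt (fun s => ∫ x, F s x) (∫ x, deriv (fun s => F s x) t) t := by
  obtain ⟨a, ha1, ha2⟩ := exists_between ht.1
  obtain ⟨b, hb1, hb2⟩ := exists_between ht.2
  have hK : IsCompact (Icc a b ×ˢ closedBall (0 : V) 1) :=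
    isCompact_Icc.prod (isCompact_closedBall 0 1)
  have hsub' : ∀ s ∈ Icc a b, s ∈ Ioo α β := fun s hs => ⟨ha1.trans_le hs.1, hs.2.trans_lt hb2⟩
  have hsub : Icc a b ×ˢ closedBall (0 : V) 1 ⊆ Ioo α β ×ˢ (univ : Set V) :=
    prod_mono hsub' (subset_univ _)
  obtain ⟨C, hC⟩ := hK.exists_bound_of_continuousOn ((cont_dt hF).mono hsub)
  have hnh : Icc a b ∈ 𝓝 t := Icc_mem_nhds ha2 hb1
  have key := (hasDerivAt_integral_of_dominated_loc_of_deriv_le (s := Icc a b)
    (F := fun s x => F s x) (F' := fun s x => deriv (fun s => F s x) s)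
    (bound := (closedBall (0 : V) 1).indicator fun _ => C) (μ := volume) hnh ?_ ?_ ?_ ?_ ?_ ?_).2
  · exact key
  · filter_upwards [Ioo_mem_nhds ht.1 ht.2] with s hs
    exact (slice hF hs).continuous.aestronglyMeasurable
  · exact int_cs (slice hF ht).continuous (hcs (hs t ht))
  · exact (cont_dt_slice hF ht).aestronglyMeasurable
  · refine Filter.Eventually.of_forall fun x s hs' => ?_
    by_cases hx : x ∈ closedBall (0 : V) 1
    · rw [indicator_of_mem hx, (hd_slice hF (hsub' s hs') x).deriv]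
      exact hC (s, x) ⟨hs', hx⟩
    · have hx' : x ∉ ball (0 : V) 1 := fun h => hx (ball_subset_closedBall h)
      rw [indicator_of_notMem hx]
      change ‖deriv (fun s => F s x) s‖ ≤ 0
      rw [dt_zero hs (hsub' s hs') hx', norm_zero]
  · exact (integrable_indicator_iff measurableSet_closedBall).2
      (integrableOn_const (measure_closedBall_lt_top.ne))
  · refine Filter.Eventually.of_forall fun x s hs' => ?_
    have h := hd_slice hF (hsub' s hs') x
    rw [← h.deriv] at h
    exact h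

end

/-! ### The identity at a fixed time -/

section

variable {w : Fin 3 → V → ℝ} {π φ : V → ℝ}

theorem Z_main (hw : ∀ i, ContDiff ℝ ∞ (w i)) (hπ : ContDiff ℝ ∞ π) (hφ : ContDiff ℝ ∞ φ)
    (hs : HasCompactSupport φ) : Z (fun x => ∑ j, ((∑ i, (2 * pd j (fun y => w i y * pd j (w i) y * φ y) x
      - pd j (fun y => w i y * w i y * pd j φ y) x
      - pd j (fun y => w j y * (w i y * w i y) * φ y) x))
      - 2 * pd j (fun y => π y * w j y * φ y) x)) := by
  refine Z.sum fun j => Z.sub (Z.sum fun i => Z.sub (Z.sub (Z.smul (Z_pd ?_ ?_ j) 2)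
    (Z_pd ?_ ?_ j)) (Z_pd ?_ ?_ j)) (Z.smul (Z_pd ?_ ?_ j) 2)
  · exact ((hw i).mul (sm_pd (hw i) j)).mul hφ
  · exact hs.mul_left
  · exact ((hw i).mul (hw i)).mul (sm_pd hφ j)
  · exact (cs_pd hs j).mul_left
  · exact ((hw j).mul ((hw i).mul (hw i))).mul hφ
  · exact hs.mul_left
  · exact (hπ.mul (hw j)).mul hφ
  · exact hs.mul_left

theorem point (hw : ∀ i, ContDiff ℝ ∞ (w i)) (hπ : ContDiff ℝ ∞ π) (hφ : ContDiff ℝ ∞ φ) (x : V)
    (hdiv : ∑ i, pd i (w i) x = 0) :
    ∑ j, ((∑ i, (2 * pd j (fun y => w i y * pd j (w i) y * φ y) x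
      - pd j (fun y => w i y * w i y * pd j φ y) x
      - pd j (fun y => w j y * (w i y * w i y) * φ y) x))
      - 2 * pd j (fun y => π y * w j y * φ y) x) =
    (∑ i, 2 * w i x * (∑ j, pd j (pd j (w i)) x - pd i π x - ∑ j, w j x * pd j (w i) x)) * φ x
      - (-2 * ((∑ i, ∑ j, pd j (w i) x ^ 2) * φ x) + (∑ i, w i x ^ 2) * (∑ j, pd j (pd j φ) x)
        + ((∑ i, w i x ^ 2) + 2 * π x) * ∑ j, w j x * pd j φ x) := by
  have e1 : ∀ i j, pd j (fun y => w i y * pd j (w i) y * φ y) x =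
      w i x * pd j (w i) x * pd j φ x + (w i x * pd j (pd j (w i)) x + pd j (w i) x * pd j (w i) x)
        * φ x := by
    intro i j
    rw [pd_mul' ((hw i).mul (sm_pd (hw i) j)) hφ, pd_mul' (hw i) (sm_pd (hw i) j)]
  have e2 : ∀ i j, pd j (fun y => w i y * w i y * pd j φ y) x =
      w i x * w i x * pd j (pd j φ) x + (w i x * pd j (w i) x + pd j (w i) x * w i x)
        * pd j φ x := by
    intro i j
    rw [pd_mul' ((hw i).mul (hw i)) (sm_pd hφ j), pd_mul' (hw i) (hw i)]
  have e3 : ∀ i j, pd j (fun y => w j y * (w i y * w i y) * φ y) x =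
      w j x * (w i x * w i x) * pd j φ x + (w j x * (w i x * pd j (w i) x + pd j (w i) x * w i x)
        + pd j (w j) x * (w i x * w i x)) * φ x := by
    intro i j
    rw [pd_mul' ((hw j).mul ((hw i).mul (hw i))) hφ, pd_mul' (hw j) ((hw i).mul (hw i)),
      pd_mul' (hw i) (hw i)]
  have e4 : ∀ j, pd j (fun y => π y * w j y * φ y) x =
      π x * w j x * pd j φ x + (π x * pd j (w j) x + pd j π x * w j x) * φ x := by
    intro j
    rw [pd_mul' (hπ.mul (hw j)) hφ, pd_mul' hπ (hw j)]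
  simp only [e1, e2, e3, e4]
  simp only [Fin.sum_univ_three] at hdiv ⊢
  linear_combination (-(w 0 x ^ 2 + w 1 x ^ 2 + w 2 x ^ 2) * φ x - 2 * π x * φ x) * hdiv

end

/-- EN: the local energy identity -/
theorem t_EN : S_EN := by
  intro v q hL α β hα hβ Φ hΦ hs t ht
  have hsub : Ioo α β ×ˢ (univ : Set V) ⊆ Ioo (-1) 0 ×ˢ univ :=
    prod_mono (Ioo_subset_Ioo hα hβ) subset_rfl
  have ht' : t ∈ Ioo (-1 : ℝ) 0 := Ioo_subset_Ioo hα hβ ht
  have hv : ContDiffOn ℝ ∞ (fun z : ℝ × V => v z.1 z.2) (Ioo α β ×ˢ univ) :=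
    hL.smooth_v.mono hsub
  have hvi : ∀ i, ContDiffOn ℝ ∞ (fun z : ℝ × V => v z.1 z.2 i) (Ioo α β ×ˢ univ) :=
    fun i => contDiffOn_pi.1 hv i
  have hq : ContDiff ℝ ∞ (q t) := slice (hL.smooth_q.mono hsub) ht
  have hw : ∀ i, ContDiff ℝ ∞ (fun y => v t y i) := fun i =>
    slice (F := fun t y => v t y i) (hvi i) ht
  have hφ : ContDiff ℝ ∞ (Φ t) := slice hΦ ht
  have hc : HasCompactSupport (Φ t) := hcs (hs t ht)
  have hdΦ : Continuous fun x => deriv (fun s => Φ s x) t := cont_dt_slice hΦ ht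
  have hdc : HasCompactSupport fun x => deriv (fun s => Φ s x) t :=
    hcs fun z hz => dt_zero hs ht hz
  have hn : Continuous (nsq (v t)) := by
    unfold nsq
    exact continuous_finsetSum _ fun i _ => (hw i).continuous.pow 2
  have hg : Continuous (gsq (v t)) := by
    unfold gsq
    exact continuous_finsetSum _ fun i _ => continuous_finsetSum _ fun j _ =>
      (sm_pd (hw i) j).continuous.pow 2
  have hlap : Continuous (lap (Φ t)) := by
    unfold lap
    exact continuous_finsetSum _ fun j _ => (sm_pd (sm_pd hφ j) j).continuous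
  have hlc : HasCompactSupport (lap (Φ t)) := by
    have h0 := cs_pd (cs_pd hc 0) 0
    have h1 := cs_pd (cs_pd hc 1) 1
    have h2 := cs_pd (cs_pd hc 2) 2
    have e : lap (Φ t) = pd 0 (pd 0 (Φ t)) + pd 1 (pd 1 (Φ t)) + pd 2 (pd 2 (Φ t)) := by
      funext x
      unfold lap
      rw [Fin.sum_univ_three]
      rfl
    rw [e]
    exact (h0.add h1).add h2
  have hadv : Continuous (adv (v t) (Φ t)) := by
    unfold adv
    exact continuous_finsetSum _ fun j _ => (hw j).continuous.mul (sm_pd hφ j).continuous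
  have hac : HasCompactSupport (adv (v t) (Φ t)) := by
    have h0 := (cs_pd hc 0).mul_left (f := fun x => v t x 0)
    have h1 := (cs_pd hc 1).mul_left (f := fun x => v t x 1)
    have h2 := (cs_pd hc 2).mul_left (f := fun x => v t x 2)
    have e : adv (v t) (Φ t) = (fun x => v t x 0) * pd 0 (Φ t) + (fun x => v t x 1) * pd 1 (Φ t) +
        (fun x => v t x 2) * pd 2 (Φ t) := by
      funext x
      unfold adv
      rw [Fin.sum_univ_three]
      rfl
    rw [e]
    exact (h0.add h1).add h2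
  -- the derivative in time
  have hF : ContDiffOn ℝ ∞ (fun z : ℝ × V => nsq (v z.1) z.2 * Φ z.1 z.2) (Ioo α β ×ˢ univ) := by
    unfold nsq
    exact (ContDiffOn.sum fun i _ => (hvi i).pow 2).mul hΦ
  have h1 := hd_int (F := fun s z => nsq (v s) z * Φ s z) hF
    (fun s hs' z hz => by rw [hs s hs' z hz, mul_zero]) ht
  refine h1.congr_deriv ?_
  -- the integrand
  have hD : ∀ x, deriv (fun s => nsq (v s) x * Φ s x) t =
      (∑ i, 2 * v t x i * (∑ j, pd j (pd j (fun y => v t y i)) x - pd i (q t) x -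
        ∑ j, v t x j * pd j (fun y => v t y i) x)) * Φ t x +
        nsq (v t) x * deriv (fun s => Φ s x) t := by
    intro x
    have d1 : ∀ i, HasDerivAt (fun s => v s x i) (∑ j, pd j (pd j (fun y => v t y i)) x -
        pd i (q t) x - ∑ j, v t x j * pd j (fun y => v t y i) x) t := by
      intro i
      have d := hd_slice (F := fun t y => v t y i) (hvi i) ht x
      rw [← d.deriv] at d
      have m := hL.momentum t ht' x i
      have e : ∑ j, pd j (pd j (fun y => v t y i)) x - pd i (q t) x -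
          ∑ j, v t x j * pd j (fun y => v t y i) x = deriv (fun s => v s x i) t := by
        linarith
      rw [e]
      exact d
    have d2 : HasDerivAt (fun s => Φ s x) (deriv (fun s => Φ s x) t) t := by
      have d := hd_slice hΦ ht x
      rwa [← d.deriv] at d
    have d3 : HasDerivAt (fun s => nsq (v s) x) (∑ i, 2 * v t x i *
        (∑ j, pd j (pd j (fun y => v t y i)) x - pd i (q t) x -
        ∑ j, v t x j * pd j (fun y => v t y i) x)) t := by
      unfold nsq
      refine HasDerivAt.fun_sum fun i _ => ?_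
      refine ((d1 i).pow 2).congr_deriv ?_
      norm_num
    exact (d3.mul d2).deriv
  have hZ := Z_main (w := fun i y => v t y i) hw hq hφ hc
  have hZ' : Z (fun x => deriv (fun s => nsq (v s) x * Φ s x) t -
      (-2 * (gsq (v t) x * Φ t x) + nsq (v t) x * (deriv (fun s => Φ s x) t + lap (Φ t) x) +
        (nsq (v t) x + 2 * q t x) * adv (v t) (Φ t) x)) := by
    have e : ∀ x, deriv (fun s => nsq (v s) x * Φ s x) t -
        (-2 * (gsq (v t) x * Φ t x) + nsq (v t) x * (deriv (fun s => Φ s x) t + lap (Φ t) x) +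
          (nsq (v t) x + 2 * q t x) * adv (v t) (Φ t) x) = _ := fun x => by
      refine Eq.trans ?_ (point (w := fun i y => v t y i) hw hq hφ x (hL.divfree t ht' x)).symm
      rw [hD x]
      simp only [nsq, gsq, adv, lap]
      ring
    have e' := funext e
    rw [e']
    exact hZ
  have i1 : Integrable fun x => gsq (v t) x * Φ t x :=
    int_cs (hg.mul hφ.continuous) hc.mul_left
  have i2 : Integrable fun x => nsq (v t) x * (deriv (fun s => Φ s x) t + lap (Φ t) x) :=
    int_cs (hn.mul (hdΦ.add hlap)) ((hdc.add hlc).mul_left)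
  have i3 : Integrable fun x => (nsq (v t) x + 2 * q t x) * adv (v t) (Φ t) x :=
    int_cs ((hn.add (continuous_const.mul hq.continuous)).mul hadv) hac.mul_left
  have i4 : Integrable fun x => -2 * (gsq (v t) x * Φ t x) +
      nsq (v t) x * (deriv (fun s => Φ s x) t + lap (Φ t) x) := (i1.const_mul (-2)).add i2
  have i5 : Integrable fun x => -2 * (gsq (v t) x * Φ t x) +
      nsq (v t) x * (deriv (fun s => Φ s x) t + lap (Φ t) x) +
      (nsq (v t) x + 2 * q t x) * adv (v t) (Φ t) x := i4.add i3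
  have h2 := integral_add hZ'.1 i5
  simp only [sub_add_cancel] at h2
  rw [hZ'.2, zero_add, integral_add i4 i3, integral_add (i1.const_mul (-2)) i2,
    integral_const_mul] at h2
  exact h2

end Pool.Agent.W583.MD
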